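import Pool.Agent.TH.Hedge

set_option autoImplicit false

namespace Pool.Agent.Results.MP_8989bc_co.ToughBound

/-- For every finite simple graph on `n` vertices which has a Hamiltonian cycle, or which has
`n ≥ 3` and in which no nonempty independent set `S` leaves more than `|S|` components, the
chromatic polynomial `P` (Whitney's sum) satisfies
`(-1)^n P(x) ≥ x (x - 1) (2 - x)^(n - 2)` for all real `x` with `1 < x < 2`. -/
theorem result :
    ∀ (V : Type) [Fintype V] [DecidableEq V] (G : SimpleGraph V) [DecidableRel G.Adj],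
      ((∃ v : V, ∃ p : G.Walk v v, p.IsHamiltonianCycle) ∨
        (3 ≤ Fintype.card V ∧ ∀ S : Finset V, S.Nonempty → G.IsIndepSet (S : Set V) →
          Nat.card ((G.induce ((S : Set V)ᶜ)).ConnectedComponent) ≤ S.card)) →
      ∀ x : ℝ, 1 < x → x < 2 →
        x * (x - 1) * (2 - x) ^ (Fintype.card V - 2) ≤
          ((-1 : ℝ) ^ Fintype.card V) *
            ∑ S ∈ G.edgeFinset.powerset,
              ((-1 : ℝ) ^ S.card) *
                x ^ Nat.card (SimpleGraph.fromEdgeSet (S : Set (Sym2 V))).ConnectedComponent := by
  intro V _ _ G _ h x h1 h2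
  exact Pool.Agent.TH.whitney_lower_of G h h1 h2

end Pool.Agent.Results.MP_8989bc_co.ToughBound
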